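import Pool.Agent.H68.PKForm
import Pool.Agent.H68.PKConv

/-!
A real normed space of finite dimension at least 2 is a Hilbert space if and only if its minimal
K-sets are exactly the bases of unit vectors which do not split into two orthogonal parts.
-/

namespace Pool.Agent.Results.MP_a3b3eb_an.HilbertIff

open Module Set

/-- Birkhoff-James orthogonality `x ⊥ y`. -/
def BJOrth {X : Type*} [NormedAddCommGroup X] [NormedSpace ℝ X] (x y : X) : Prop :=
  ∀ t : ℝ, ‖x‖ ≤ ‖x + t • y‖

/-- The linear operator `T` preserves Birkhoff-James orthogonality at `x`. -/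
def PreservesAt {X : Type*} [NormedAddCommGroup X] [NormedSpace ℝ X] (T : X →ₗ[ℝ] X) (x : X) :
    Prop :=
  ∀ y, BJOrth x y → BJOrth (T x) (T y)

/-- `A` is a K-set: every linear operator which preserves Birkhoff-James orthogonality at all
points of `A` is a scalar multiple of a linear isometry. -/
def IsKSet {X : Type*} [NormedAddCommGroup X] [NormedSpace ℝ X] (A : Set X) : Prop :=
  ∀ T : X →ₗ[ℝ] X, (∀ x ∈ A, PreservesAt T x) →
    ∃ (c : ℝ) (U : X →ₗᵢ[ℝ] X), ∀ x, T x = c • U x

/-- `A` is a minimal K-set: a K-set with no proper subset which is a K-set. -/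
def IsMinimalKSet {X : Type*} [NormedAddCommGroup X] [NormedSpace ℝ X] (A : Set X) : Prop :=
  IsKSet A ∧ ∀ B : Set X, B ⊂ A → ¬ IsKSet B

/-- Property (P): a nonempty set `A` of unit vectors is a minimal K-set if and only if it consists
of `n` linearly independent vectors, `n` the dimension, and is not the union of two nonempty sets
`A₁`, `A₂` with `A₁ ⊥ A₂`. -/
def PropertyP (X : Type*) [NormedAddCommGroup X] [NormedSpace ℝ X] : Prop :=
  ∀ A : Set X, A ⊆ Metric.sphere 0 1 → A.Nonempty →
    (IsMinimalKSet A ↔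
      (∃ x : Fin (finrank ℝ X) → X, LinearIndependent ℝ x ∧ A = range x) ∧
      ∀ A₁ A₂ : Set X, A₁.Nonempty → A₂.Nonempty → A = A₁ ∪ A₂ →
        ¬ ∀ x ∈ A₁, ∀ y ∈ A₂, BJOrth x y)

/-- The norm is induced by an inner product. -/
def IsHilbert (X : Type*) [NormedAddCommGroup X] [NormedSpace ℝ X] : Prop :=
  ∃ c : InnerProductSpace.Core ℝ X, ∀ x : X, ‖x‖ = √(c.inner x x)

theorem range_comp_cast {X : Type*} {n k : ℕ} (h : n = k) (g : Fin k → X) :
    range (g ∘ Fin.cast h) = range g := by
  subst h
  rfl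

section Forward

open Pool.Agent.H68.PK

variable {X : Type*} [NormedAddCommGroup X] [NormedSpace ℝ X]

theorem kp_of_propertyP (hP : PropertyP X) : KP X := by
  intro m hm y x₀ hli hx₀ hyy h1 h2 T hT0 hT
  classical
  set f : Fin (m + 1) → X := Fin.cons x₀ y with hf
  have hfli : LinearIndependent ℝ f := by
    rw [hf, linearIndependent_finCons]
    exact ⟨hli, hx₀⟩
  have hf0 : ∀ i, f i ≠ 0 := hfli.ne_zero
  set g : Fin (m + 1) → X := fun i => ‖f i‖⁻¹ • f i with hg
  have hn : ∀ i, ‖f i‖⁻¹ ≠ 0 := fun i => inv_ne_zero (norm_ne_zero_iff.2 (hf0 i))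
  have hgli : LinearIndependent ℝ g := hfli.units_smul (fun i => Units.mk0 _ (hn i))
  have hgn : ∀ i, ‖g i‖ = 1 := by
    intro i
    simp only [hg]
    rw [norm_smul, norm_inv, norm_norm, inv_mul_cancel₀ (norm_ne_zero_iff.2 (hf0 i))]
  have hBJ : ∀ i j, BJOrth (g i) (g j) → BJ (f i) (f j) := by
    intro i j h
    have h3 : BJ (g i) (g j) := h
    exact (h3.of_smul_left (hn i)).of_smul_right (hn j)
  have hpres : ∀ i, PresAt T (f i) := by
    intro i
    refine Fin.cases ?_ (fun j => ?_) i
    · exact hT0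
    · exact hT j
  have hset : IsMinimalKSet (range g) := by
    refine (hP (range g) ?_ ⟨g 0, mem_range_self 0⟩).2 ⟨?_, ?_⟩
    · rintro _ ⟨i, rfl⟩
      simpa using hgn i
    · refine ⟨g ∘ Fin.cast hm, hgli.comp _ (Fin.cast_injective hm), ?_⟩
      rw [range_comp_cast]
    · intro A₁ A₂ hA₁ hA₂ hA horth
      -- positions of the vectors
      have hmem : ∀ i, g i ∈ A₁ ∪ A₂ := fun i => by
        rw [← hA]
        exact mem_range_self i
      by_cases hc : ∃ j : Fin m, g j.succ ∈ A₁
      · obtain ⟨j, hj⟩ := hc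
        have hno2 : ∀ i : Fin m, g i.succ ∉ A₂ := fun i hi =>
          hyy j i (hBJ _ _ (horth _ hj _ hi))
        have h0 : g 0 ∈ A₂ := by
          obtain ⟨z, hz⟩ := hA₂
          have hz' : z ∈ range g := by
            rw [hA]
            exact Or.inr hz
          obtain ⟨i, rfl⟩ := hz'
          revert hz
          refine Fin.cases (fun h => h) (fun i h => absurd h (hno2 i)) i
        obtain ⟨k, hk⟩ := h2
        refine hk (hBJ k.succ 0 (horth _ ?_ _ h0))
        rcases hmem k.succ with h | h
        · exact h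
        · exact absurd h (hno2 k)
      · push Not at hc
        have h0 : g 0 ∈ A₁ := by
          obtain ⟨z, hz⟩ := hA₁
          have hz' : z ∈ range g := by
            rw [hA]
            exact Or.inl hz
          obtain ⟨i, rfl⟩ := hz'
          revert hz
          refine Fin.cases (fun h => h) (fun i h => absurd h (hc i)) i
        obtain ⟨k, hk⟩ := h1
        refine hk (hBJ 0 k.succ (horth _ h0 _ ?_))
        rcases hmem k.succ with h | h
        · exact absurd h (hc k)
        · exact h
  obtain ⟨c, U, hcU⟩ := hset.1 T (by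
    rintro _ ⟨i, rfl⟩ z hz
    have h3 : BJ (f i) z := BJ.of_smul_left (hn i) hz
    have h4 := (hpres i z h3).smul ‖f i‖⁻¹ 1
    rw [one_smul, ← map_smul] at h4
    exact h4)
  exact ⟨|c|, fun x => by rw [hcU, norm_smul, U.norm_map, Real.norm_eq_abs]⟩

variable [FiniteDimensional ℝ X]

theorem isHilbert_of_propertyP (h2 : 2 ≤ finrank ℝ X) (hP : PropertyP X) : IsHilbert X := by
  obtain ⟨B, hB, hBn⟩ := hilbert_of_KP (kp_of_propertyP hP) h2
  refine ⟨{ inner := fun x y => B x y
            conj_inner_symm := fun x y => by simpa using hB y x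
            re_inner_nonneg := fun x => by
              change 0 ≤ B x x
              rw [← hBn]
              positivity
            add_left := fun x y z => by simp
            smul_left := fun x y r => by simp
            definite := fun x hx => by
              have h3 : B x x = 0 := hx
              rw [← hBn] at h3
              exact norm_eq_zero.1 (pow_eq_zero_iff (two_ne_zero) |>.1 h3) }, fun x => ?_⟩
  change ‖x‖ = √(B x x)
  rw [← hBn, Real.sqrt_sq (norm_nonneg _)]

end Forward

section Backward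

open Pool.Agent.H68.PK

theorem propertyP_of_inner {E : Type*} [NormedAddCommGroup E] [InnerProductSpace ℝ E]
    [FiniteDimensional ℝ E] (h2 : 2 ≤ finrank ℝ E) : PropertyP E := by
  intro A hA hne
  have hA1 : ∀ x ∈ A, ‖x‖ = 1 := fun x hx => by simpa using hA hx
  have hK : ∀ {B : Set E}, (∀ x ∈ B, ‖x‖ = 1) → B.Nonempty → Submodule.span ℝ B = ⊤ → Conn B →
      IsKSet B := fun hB hBne hs hc T hT => similarity_of_conn hB hBne hs hc hT
  constructor
  · rintro ⟨hAK, hmin⟩
    have hs : Submodule.span ℝ A = ⊤ := by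
      by_contra hs
      obtain ⟨T, hT, hT'⟩ := exists_bad_of_span_ne h2 hs
      exact hT' (hAK T hT)
    have hc : Conn A := by
      by_contra hc
      obtain ⟨T, hT, hT'⟩ := exists_bad_of_not_conn hA1 hc
      exact hT' (hAK T hT)
    obtain ⟨k, hk⟩ : ∃ k, finrank ℝ E = k + 1 := ⟨finrank ℝ E - 1, by omega⟩
    obtain ⟨f, hfA, hfli, hfc⟩ := exists_conn_basis hA1 hne hs hc k hk.ge
    have hfs : Submodule.span ℝ (range f) = ⊤ :=
      hfli.span_eq_top_of_card_eq_finrank' (by rw [Fintype.card_fin, hk])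
    have hfK : IsKSet (range f) := by
      refine hK ?_ ⟨f 0, mem_range_self 0⟩ hfs hfc
      rintro _ ⟨i, rfl⟩
      exact hA1 _ (hfA i)
    have hAf : A = range f := by
      by_contra hne'
      have hss : range f ⊂ A := by
        refine lt_of_le_of_ne ?_ (Ne.symm hne')
        rintro _ ⟨i, rfl⟩
        exact hfA i
      exact hmin _ hss hfK
    refine ⟨⟨f ∘ Fin.cast hk, hfli.comp _ (Fin.cast_injective hk), ?_⟩, ?_⟩
    · rw [range_comp_cast, hAf]
    · intro A₁ A₂ h₁ h₂ hA₁₂ horth
      exact hc A₁ A₂ h₁ h₂ hA₁₂ fun x hx y hy => BJ_iff_inner.1 (horth x hx y hy)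
  · rintro ⟨⟨f, hfli, hAf⟩, hcc⟩
    have hc : Conn A := fun A₁ A₂ h₁ h₂ hA₁₂ horth =>
      hcc A₁ A₂ h₁ h₂ hA₁₂ fun x hx y hy => BJ_iff_inner.2 (horth x hx y hy)
    have hfs : Submodule.span ℝ A = ⊤ := by
      rw [hAf]
      exact hfli.span_eq_top_of_card_eq_finrank' (by rw [Fintype.card_fin])
    refine ⟨hK hA1 hne hfs hc, fun B hB hBK => ?_⟩
    obtain ⟨hBA, x, hxA, hxB⟩ := Set.ssubset_iff_exists.1 hB
    rw [hAf] at hxA
    obtain ⟨i, rfl⟩ := hxA
    have hBi : B ⊆ f '' {j | j ≠ i} := by
      intro z hz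
      have hz' := hBA hz
      rw [hAf] at hz'
      obtain ⟨j, rfl⟩ := hz'
      refine ⟨j, ?_, rfl⟩
      rintro rfl
      exact hxB hz
    have hs : Submodule.span ℝ B ≠ ⊤ := by
      intro hs
      have h3 : f i ∈ Submodule.span ℝ (f '' {j | j ≠ i}) :=
        Submodule.span_mono hBi (by rw [hs]; trivial)
      exact hfli.notMem_span_image (s := {j | j ≠ i}) (by simp) h3
    obtain ⟨T, hT, hT'⟩ := exists_bad_of_span_ne h2 hs
    exact hT' (hBK T hT)

variable {X : Type*} [NormedAddCommGroup X] [NormedSpace ℝ X] [FiniteDimensional ℝ X]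

theorem propertyP_of_isHilbert (h2 : 2 ≤ finrank ℝ X) (h : IsHilbert X) : PropertyP X := by
  obtain ⟨c, hc⟩ := h
  let inst : InnerProductSpace ℝ X :=
    { (inferInstance : NormedSpace ℝ X) with
      inner := c.inner
      norm_sq_eq_re_inner := fun x => by
        have h3 : 0 ≤ c.inner x x := c.re_inner_nonneg x
        rw [hc, Real.sq_sqrt h3]
        rfl
      conj_inner_symm := c.conj_inner_symm
      add_left := c.add_left
      smul_left := c.smul_left }
  exact @propertyP_of_inner X _ inst _ h2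

end Backward

/-- A real normed space of finite dimension at least 2 is a Hilbert space if and only if it has
property (P). -/
theorem result (X : Type*) [NormedAddCommGroup X] [NormedSpace ℝ X] [FiniteDimensional ℝ X]
    (h2 : 2 ≤ finrank ℝ X) : IsHilbert X ↔ PropertyP X :=
  ⟨propertyP_of_isHilbert h2, isHilbert_of_propertyP h2⟩

end Pool.Agent.Results.MP_a3b3eb_an.HilbertIff
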